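import Mathlib
import Pool.Agent.H2.CIQ3

/-!
# Every numerical semigroup is a quotient of a complete intersection numerical semigroup
-/

set_option autoImplicit false

namespace Pool.Agent.Results.MP_325c15_al.EveryNumericalSemigroup

/-- A numerical semigroup: a submonoid of `(ℕ, +)` with finite complement. -/
def IsNumericalSemigroup (S : AddSubmonoid ℕ) : Prop := ((S : Set ℕ)ᶜ).Finite

/-- The minimal generators of `S`: the nonzero elements of `S` that are not sums of two nonzero
elements of `S`. -/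
def minimalGenerators (S : AddSubmonoid ℕ) : Set ℕ :=
  {x | x ∈ S ∧ x ≠ 0 ∧ ∀ a ∈ S, ∀ b ∈ S, a + b = x → a = 0 ∨ b = 0}

/-- `σ ⊆ ℕᵉ × ℕᵉ` is a presentation of the semigroup generated by `n₁, …, nₑ`: the congruence
generated by `σ` is the kernel congruence of `φ(a) = ∑ aᵢ nᵢ`. -/
def IsPresentation {e : ℕ} (n : Fin e → ℕ) (σ : Set ((Fin e → ℕ) × (Fin e → ℕ))) : Prop :=
  ∀ a b : Fin e → ℕ, addConGen (fun x y => (x, y) ∈ σ) a b ↔ ∑ i, a i * n i = ∑ i, b i * n i

/-- `S` is a complete intersection: for an enumeration `n₁, …, nₑ` of its minimal generators, the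
least number of elements of a presentation is `e - 1`. -/
def IsCompleteIntersection (S : AddSubmonoid ℕ) : Prop :=
  ∃ (e : ℕ) (n : Fin e → ℕ), Function.Injective n ∧ Set.range n = minimalGenerators S ∧
    IsLeast {k : ℕ | ∃ σ, IsPresentation n σ ∧ σ.Finite ∧ σ.ncard = k} (e - 1)

/-- Every numerical semigroup `T` is a quotient `S / d` of a complete intersection numerical
semigroup `S` by a positive integer `d`. -/
theorem result : ∀ T : AddSubmonoid ℕ, IsNumericalSemigroup T →
    ∃ S : AddSubmonoid ℕ, IsNumericalSemigroup S ∧ IsCompleteIntersection S ∧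
      ∃ d : ℕ, 1 ≤ d ∧ ∀ x : ℕ, x ∈ T ↔ d * x ∈ S := by
  intro T hT
  have hcof : Pool.Agent.H2.CIQ.Cof T := by
    obtain ⟨N, hN⟩ := hT.bddAbove
    refine ⟨N + 1, fun x hx => ?_⟩
    by_contra h
    have := hN (show x ∈ ((T : Set ℕ)ᶜ) from h)
    omega
  obtain ⟨S, hS, hci, d, hd, h⟩ := Pool.Agent.H2.CIQ.main T hcof
  obtain ⟨N, hN⟩ := hS
  refine ⟨S, ?_, ?_, d, hd, h⟩
  · apply (Set.finite_lt_nat N).subset
    intro x hx
    by_contra hxN
    exact hx (hN x (not_lt.1 hxN))
  · obtain ⟨e, n, hn, hrange, σ, hfin, hcard, hσ⟩ := hci.data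
    refine ⟨e, n, hn, hrange, ⟨σ, hσ, hfin, hcard⟩, ?_⟩
    rintro k ⟨τ, hτ, hτfin, rfl⟩
    apply Pool.Agent.H2.CIQ.lower n _ τ hτfin hτ
    intro i
    have hr : Set.range n = minimalGenerators S := hrange
    have : n i ∈ minimalGenerators S := by rw [← hr]; exact ⟨i, rfl⟩
    exact this.2.1

end Pool.Agent.Results.MP_325c15_al.EveryNumericalSemigroup
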